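import Pool.Agent.helper61.DP.SpecA

/-!
# Module dp:GI: interface edges on the inner circle
-/

namespace DP

theorem GI_ind {W : Set V} {u v : V} (h : Con W u v) (P : V → Prop) (h0 : P u)
    (hs : ∀ a b, a ∈ W → b ∈ W → Adj a b → P a → P b) : P v := by
  have : v ∈ W ∧ P v := by
    obtain ⟨hu, h⟩ := h
    induction h with
    | refl => exact ⟨hu, h0⟩
    | tail _ hbc ih => exact ⟨hbc.2, hs _ _ ih.1 hbc.2 hbc.1 ih.2⟩
  exact this.2

theorem GI_sdle {u v : V} (h : Adj u v) (x : V) : sd x v ≤ sd x u + 1 := by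
  have h1 := h.1
  unfold sd at *
  omega

open Classical in
/-- The cochain: `1` on the pairs with one site in `C` and the other one in `B`. -/
noncomputable def GI_f (C B : Set V) (u v : V) : ZMod 2 :=
  if (u ∈ C ∧ v ∈ B) ∨ (u ∈ B ∧ v ∈ C) then 1 else 0

theorem GI_f_symm (C B : Set V) (u v : V) : GI_f C B u v = GI_f C B v u := by
  unfold GI_f
  have : ((u ∈ C ∧ v ∈ B) ∨ (u ∈ B ∧ v ∈ C)) ↔ ((v ∈ C ∧ u ∈ B) ∨ (v ∈ B ∧ u ∈ C)) := by tauto
  by_cases h : (u ∈ C ∧ v ∈ B) ∨ (u ∈ B ∧ v ∈ C)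
  · rw [if_pos h, if_pos (this.1 h)]
  · rw [if_neg h, if_neg (fun h' => h (this.2 h'))]

theorem GI_f_zero {C B : Set V} {u v : V} (h : ¬ (u ∈ C ∧ v ∈ B)) (h' : ¬ (u ∈ B ∧ v ∈ C)) :
    GI_f C B u v = 0 := by
  unfold GI_f
  rw [if_neg]
  tauto

theorem GI_f_one {C B : Set V} {u v : V} (hu : u ∈ C) (hv : v ∈ B) : GI_f C B u v = 1 := by
  unfold GI_f
  rw [if_pos]
  tauto

/-- Closedness on the triangle `u, v, w` if every triangle with a site of `C` and a site of `B` has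
its third site in `C` or `B`. -/
theorem GI_closed (C B : Set V) (R : Set V) (hdis : ∀ z ∈ C, z ∉ B)
    (h : ∀ u v w, u ∈ R → v ∈ R → w ∈ R → Adj u v → Adj v w → Adj w u → u ∈ C → v ∈ B →
      w ∈ C ∨ w ∈ B) : Closed R (GI_f C B) := by
  refine ⟨GI_f_symm C B, ?_⟩
  intro u v w hu hv hw huv hvw hwu
  have two : (1 : ZMod 2) + 1 = 0 := by decide
  -- the six possible placements of a pair (C, B)
  have t1 := h u v w hu hv hw huv hvw hwu
  have t2 := h v u w hv hu hw huv.symm hwu.symm hvw.symm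
  have t3 := h v w u hv hw hu hvw hwu huv
  have t4 := h w v u hw hv hu hvw.symm huv.symm hwu.symm
  have t5 := h w u v hw hu hv hwu huv hvw
  have t6 := h u w v hu hw hv hwu.symm hvw.symm huv.symm
  have d1 := hdis u
  have d2 := hdis v
  have d3 := hdis w
  unfold GI_f
  by_cases a1 : u ∈ C <;> by_cases a2 : v ∈ C <;> by_cases a3 : w ∈ C <;>
    by_cases b1 : u ∈ B <;> by_cases b2 : v ∈ B <;> by_cases b3 : w ∈ B <;>
    simp_all

/-- Potentials are constant along connected sets without interface edges. -/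
theorem GI_const {C B R S : Set V} {φ : V → ZMod 2}
    (hφ : ∀ u v, u ∈ R → v ∈ R → Adj u v → GI_f C B u v = φ u + φ v) (hSR : S ⊆ R)
    (hS : (∀ z ∈ S, z ∉ C) ∨ (∀ z ∈ S, z ∉ B)) {u v : V} (h : Con S u v) : φ u = φ v := by
  have key : ∀ a b : ZMod 2, 0 = a + b → a = b := by decide
  refine GI_ind h (fun z => φ u = φ z) rfl ?_
  intro a b ha hb hab hP
  rw [hP]
  refine key _ _ ?_
  rw [← hφ a b (hSR ha) (hSR hb) hab, GI_f_zero]
  · rintro ⟨h1, h2⟩
    rcases hS with hS | hS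
    · exact hS a ha h1
    · exact hS b hb h2
  · rintro ⟨h1, h2⟩
    rcases hS with hS | hS
    · exact hS b hb h2
    · exact hS a ha h1

open Classical in
theorem GI_arc (hPO : PO_stmt) (hAI : AI_stmt) (x : V) (m : ℕ) (U C B R : Set V) (D : Set V)
    (hm : 1 ≤ m) (φ : V → ZMod 2)
    (hφ : ∀ u v, u ∈ R → v ∈ R → Adj u v → GI_f C B u v = φ u + φ v)
    (hbR : ∀ z ∈ bd x m, z ∈ R) (hbU : ∀ z ∈ bd x m, z ∈ U) (hdis : ∀ z ∈ C, z ∉ B)
    (hB : ∀ z ∈ nbd U C, ¬ (∃ p ∈ D, Con (nbd U C) z p) → z ∈ B)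
    (u v : V) (hu : u ∈ bd x m) (hv : v ∈ bd x m) (huv : ¬ (u ∈ C ↔ v ∈ C)) (hφuv : φ u = φ v) :
    ∃ a b : V, ((nxt x m a b ∧ a ≠ v) ∨ (nxt x m b a ∧ b ≠ v)) ∧ onArc x m u v a ∧
      onArc x m u v b ∧ a ∈ C ∧ b ∉ C ∧ ∃ p ∈ D, Con (nbd U C) b p := by
  by_contra hcon
  push Not at hcon
  have key : ∀ a b : V, ((nxt x m a b ∧ a ≠ v) ∨ (nxt x m b a ∧ b ≠ v)) → onArc x m u v a →
      onArc x m u v b → a ∈ C → b ∉ C → φ a + φ b = 1 := by
    intro a b hn ha hb hac hbc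
    have hadj : Adj a b := by
      rcases hn with hn | hn
      · exact hPO.2.2.2 x m a b hm hn.1
      · exact (hPO.2.2.2 x m b a hm hn.1).symm
    have hbb : b ∈ bd x m := hb.2.2.1
    have hbn : b ∈ nbd U C := ⟨hbU b hbb, hbc, a, hac, hadj⟩
    have hbB : b ∈ B := by
      refine hB b hbn ?_
      rintro ⟨p, hp, hp'⟩
      exact hcon a b hn ha hb hac hbc p hp hp'
    rw [← hφ a b (hbR a ha.2.2.1) (hbR b hbb) hadj, GI_f_one hac hbB]
  have z1 : ∀ a b : ZMod 2, a + b = 1 → a + 1 = b + 0 := by decide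
  have z2 : ∀ a b : ZMod 2, b + a = 1 → a + 0 = b + 1 := by decide
  have z3 : ∀ a b : ZMod 2, 0 = a + b → a = b := by decide
  have z4 : ∀ a : ZMod 2, a + 1 ≠ a + 0 := by decide
  have hψ : φ u + (if u ∈ C then 1 else 0) = φ v + (if v ∈ C then 1 else 0) := by
    refine hAI x m u v (fun z => φ u + (if u ∈ C then (1 : ZMod 2) else 0) =
      φ z + (if z ∈ C then 1 else 0)) hm hu hv rfl ?_
    intro a b hn hav _ ha hb hP
    rw [hP]
    have hadj := hPO.2.2.2 x m a b hm hn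
    by_cases hac : a ∈ C <;> by_cases hbc : b ∈ C
    · rw [if_pos hac, if_pos hbc]
      congr 1
      refine z3 _ _ ?_
      rw [← hφ a b (hbR a ha.2.2.1) (hbR b hb.2.2.1) hadj, GI_f_zero]
      · rintro ⟨-, h⟩; exact hdis b hbc h
      · rintro ⟨h, -⟩; exact hdis a hac h
    · rw [if_pos hac, if_neg hbc]
      exact z1 _ _ (key a b (Or.inl ⟨hn, hav⟩) ha hb hac hbc)
    · rw [if_neg hac, if_pos hbc]
      exact z2 _ _ (key b a (Or.inr ⟨hn, hav⟩) hb ha hbc hac)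
    · rw [if_neg hac, if_neg hbc]
      congr 1
      refine z3 _ _ ?_
      rw [← hφ a b (hbR a ha.2.2.1) (hbR b hb.2.2.1) hadj, GI_f_zero]
      · rintro ⟨h, -⟩; exact hac h
      · rintro ⟨-, h⟩; exact hbc h
  rw [hφuv] at hψ
  by_cases hac : u ∈ C <;> by_cases hbc : v ∈ C
  · exact huv ⟨fun _ => hbc, fun _ => hac⟩
  · rw [if_pos hac, if_neg hbc] at hψ
    exact z4 _ hψ
  · rw [if_neg hac, if_pos hbc] at hψ
    exact z4 _ hψ.symm
  · exact huv ⟨fun h => absurd h hac, fun h => absurd h hbc⟩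

theorem GI (hPX : PX_stmt) (hCX : CX_stmt) (hPO : PO_stmt) (hAI : AI_stmt) : GI_stmt := by
  intro x m n C u v hev hm hmn hCU hu hv hup hvp
  obtain ⟨p, hp, hup⟩ := hup
  obtain ⟨p', hp', hvp⟩ := hvp
  set U := ann x m n with hU
  set N := nbd U C with hN
  set B : Set V := {w | w ∈ N ∧ ¬ ∃ q ∈ bd x n, Con N w q} with hBdef
  have hdis : ∀ z ∈ C, z ∉ B := fun z hz hzB => hzB.1.2.1 hz
  have hBn : ∀ z ∈ B, sd x z < n := by
    intro z hz
    have h1 : sd x z ≤ n := hz.1.1.2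
    rcases lt_or_eq_of_le h1 with h | h
    · exact h
    · exact absurd ⟨z, h, Con.refl hz.1⟩ hz.2
  have hclosed : Closed {z | m ≤ sd x z} (GI_f C B) := by
    refine GI_closed C B _ hdis ?_
    intro a b w ha hb hw hab hbw hwa haC hbB
    by_cases hwC : w ∈ C
    · exact Or.inl hwC
    right
    have hwn : sd x w ≤ n := by
      have := GI_sdle hbw x
      have := hBn b hbB
      omega
    have hwN : w ∈ N := ⟨⟨hw, hwn⟩, hwC, a, haC, hwa.symm⟩
    refine ⟨hwN, ?_⟩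
    rintro ⟨q, hq, hwq⟩
    exact hbB.2 ⟨q, hq, (Con.single hbB.1 hbw hwN).trans hwq⟩
  obtain ⟨φ, hφ'⟩ := hPX x m n (GI_f C B) hev hm hmn hclosed (by
    intro a b ha hb
    refine GI_f_zero ?_ ?_
    · rintro ⟨-, h⟩
      have := hBn b h
      omega
    · rintro ⟨h, -⟩
      have := hBn a h
      omega)
  have hφ : ∀ a b, a ∈ {z : V | m ≤ sd x z} → b ∈ {z : V | m ≤ sd x z} → Adj a b →
      GI_f C B a b = φ a + φ b := fun a b ha hb hab => hφ' a b ha hb hab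
  have e1 : φ u = φ p := GI_const hφ (fun z hz => (hCU hz).1) (Or.inr hdis) hup
  have e2 : φ v = φ p' := GI_const hφ (fun z hz => hz.1.1) (Or.inl fun z hz => hz.2) hvp
  have e3 : φ p = φ p' := by
    have hc := hCX.2.1 x n p p' (by omega) (le_of_eq hp.symm) (le_of_eq hp'.symm)
    refine GI_const hφ (fun z hz => ?_) (Or.inr fun z hz hzB => ?_) hc
    · simp only [Set.mem_ofPred_eq] at hz ⊢
      omega
    · have := hBn z hzB
      simp only [Set.mem_ofPred_eq] at hz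
      omega
  have huv : φ u = φ v := by rw [e1, e3, e2]
  have huC : u ∈ C := hup.1
  have hvC : v ∉ C := hvp.1.2
  have hbR : ∀ z ∈ bd x m, z ∈ {z : V | m ≤ sd x z} := fun z hz => le_of_eq hz.symm
  have hbU : ∀ z ∈ bd x m, z ∈ U := fun z hz => ⟨le_of_eq hz.symm, by
    have : sd x z = m := hz
    omega⟩
  have hB : ∀ z ∈ nbd U C, ¬ (∃ q ∈ bd x n, Con (nbd U C) z q) → z ∈ B := fun z hz h => ⟨hz, h⟩
  constructor
  · obtain ⟨a, b, h1, h2⟩ := GI_arc hPO hAI x m U C B _ (bd x n) hm φ hφ hbR hbU hdis hB u v hu hv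
      (fun h => hvC (h.1 huC)) huv
    exact ⟨a, b, h1.imp (fun h => h.1) id, h2⟩
  · obtain ⟨a, b, h1, h2⟩ := GI_arc hPO hAI x m U C B _ (bd x n) hm φ hφ hbR hbU hdis hB v u hv hu
      (fun h => hvC (h.2 huC)) huv.symm
    exact ⟨a, b, h1.imp id (fun h => h.1), h2⟩

end DP
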