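import Pool.Agent.helper61.DP.SpecA

/-!
# Module dp:JS: a Jordan type theorem for the square circle
-/

namespace DP

theorem JS_ind {W : Set V} {u v : V} (h : Con W u v) (P : V → Prop) (h0 : P u)
    (hs : ∀ a b, a ∈ W → b ∈ W → Adj a b → P a → P b) : P v := by
  have : v ∈ W ∧ P v := by
    obtain ⟨hu, h⟩ := h
    induction h with
    | refl => exact ⟨hu, h0⟩
    | tail _ hbc ih => exact ⟨hbc.2, hs _ _ ih.1 hbc.2 hbc.1 ih.2⟩
  exact this.2

theorem JS_path {W : Set V} {u v : V} (h : Con W u v) : ∃ l, IsPath W l u v := by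
  refine JS_ind h (fun z => ∃ l, IsPath W l u z) ⟨[u], by simp [IsPath, h.1]⟩ ?_
  rintro a b - hb hab ⟨l, h1, h2, h3, h4⟩
  refine ⟨l ++ [b], ?_, by simp, ?_, ?_⟩
  · cases l with
    | nil => simp at h1
    | cons c l => simpa using h1
  · rw [List.isChain_append]
    refine ⟨h3, by simp, ?_⟩
    intro x hx y hy
    simp only [List.head?_cons, Option.mem_def, Option.some.injEq] at hy
    subst hy
    rw [Option.mem_def, h2, Option.some.injEq] at hx
    subst hx
    exact hab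
  · intro w hw
    rcases List.mem_append.1 hw with hw | hw
    · exact h4 w hw
    · rw [List.mem_singleton.1 hw]
      exact hb

/-- A function with constant parity along vertical and rightward steps has constant parity along
all steps. -/
theorem JS_step (S : Set V) (F : V → ℕ)
    (hv : ∀ z z' : V, z ∈ S → z' ∈ S → Adj z z' → z'.1 = z.1 → z'.2 = z.2 + 1 →
      (F z + F z') % 2 = 0)
    (hh : ∀ z z' : V, z ∈ S → z' ∈ S → Adj z z' → z'.1 = z.1 + 1 → (F z + F z') % 2 = 0) :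
    ∀ z z' : V, z ∈ S → z' ∈ S → Adj z z' → (F z + F z') % 2 = 0 := by
  intro z z' hz hz' ha
  have h := ha
  rw [adj_iff] at h
  obtain ⟨⟨h1, h2, h3, h4⟩, h5, -⟩ := h
  have h6 : z'.1 = z.1 ∨ z'.1 = z.1 + 1 ∨ z.1 = z'.1 + 1 := by omega
  rcases h6 with h6 | h6 | h6
  · have h7 : z'.2 = z.2 + 1 ∨ z.2 = z'.2 + 1 := by omega
    rcases h7 with h7 | h7
    · exact hv z z' hz hz' ha h6 h7
    · have := hv z' z hz' hz ha.symm h6.symm h7
      omega
  · exact hh z z' hz hz' ha h6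
  · have := hh z' z hz' hz ha.symm h6
    omega

theorem JS_con {S : Set V} {F : V → ℕ}
    (h : ∀ z z' : V, z ∈ S → z' ∈ S → Adj z z' → (F z + F z') % 2 = 0) {u v : V}
    (hc : Con S u v) : (F u + F v) % 2 = 0 := by
  refine JS_ind hc (fun w => (F u + F w) % 2 = 0) (by omega) ?_
  intro p q hp hq hpq hP
  have := h p q hp hq hpq
  omega

theorem JS (hUV : UV_stmt) (hUH : UH_stmt) (hKP : KP_stmt) : JS_stmt := by
  obtain ⟨K1, K2, K3⟩ := hKP
  intro x r a b c d W₁ W₂ W hev hr halt h1 h2 hc1 hc2 hc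
  by_contra hne
  rw [Set.not_nonempty_iff_eq_empty, Set.eq_empty_iff_forall_notMem] at hne
  obtain ⟨l, hl1, hl2, hl3, hl4⟩ := JS_path hc
  have hb : b ∈ l := List.mem_of_head? hl1
  have hd : d ∈ l := List.mem_of_getLast? hl2
  have hbd : a ∈ bd x r ∧ b ∈ bd x r ∧ c ∈ bd x r ∧ d ∈ bd x r := halt.1
  have n1 : ∀ z ∈ W₁, z ∉ l := fun z hz hzl => hne z ⟨Or.inl hz, hl4 z hzl⟩
  have n2 : ∀ z ∈ W₂, z ∉ l := fun z hz hzl => hne z ⟨Or.inr hz, hl4 z hzl⟩
  -- inside
  have I1 : (upCross a l + kap x r b a + kap x r d a +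
      (upCross c l + kap x r b c + kap x r d c)) % 2 = 0 := by
    refine JS_con (F := fun z => upCross z l + kap x r b z + kap x r d z)
      (JS_step W₁ _ ?_ ?_) hc1
    · intro z z' hz hz' ha e1 e2
      have u1 := hUV l z z' e1 e2 (n1 z' hz')
      have u2 := (K1 x r b z z' hbd.2.1 (h1 hz) (h1 hz') ha
        (fun h => n1 z hz (h ▸ hb)) (fun h => n1 z' hz' (h ▸ hb))).1 e1
      have u3 := (K1 x r d z z' hbd.2.2.2 (h1 hz) (h1 hz') ha
        (fun h => n1 z hz (h ▸ hd)) (fun h => n1 z' hz' (h ▸ hd))).1 e1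
      omega
    · intro z z' hz hz' ha e1
      have u1 := hUH l b d z z' hl1 hl2 hl3 ha e1 (n1 z hz) (n1 z' hz')
      have u2 := (K1 x r b z z' hbd.2.1 (h1 hz) (h1 hz') ha
        (fun h => n1 z hz (h ▸ hb)) (fun h => n1 z' hz' (h ▸ hb))).2 e1
      have u3 := (K1 x r d z z' hbd.2.2.2 (h1 hz) (h1 hz') ha
        (fun h => n1 z hz (h ▸ hd)) (fun h => n1 z' hz' (h ▸ hd))).2 e1
      omega
  -- outside
  have I2 : (upCross a l + hap x r b a + hap x r d a +
      (upCross c l + hap x r b c + hap x r d c)) % 2 = 0 := by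
    refine JS_con (F := fun z => upCross z l + hap x r b z + hap x r d z)
      (JS_step W₂ _ ?_ ?_) hc2
    · intro z z' hz hz' ha e1 e2
      have u1 := hUV l z z' e1 e2 (n2 z' hz')
      have u2 := (K2 x r b z z' hev hr hbd.2.1 (h2 hz) (h2 hz') ha
        (fun h => n2 z hz (h ▸ hb)) (fun h => n2 z' hz' (h ▸ hb))).1 e1
      have u3 := (K2 x r d z z' hev hr hbd.2.2.2 (h2 hz) (h2 hz') ha
        (fun h => n2 z hz (h ▸ hd)) (fun h => n2 z' hz' (h ▸ hd))).1 e1
      omega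
    · intro z z' hz hz' ha e1
      have u1 := hUH l b d z z' hl1 hl2 hl3 ha e1 (n2 z hz) (n2 z' hz')
      have u2 := (K2 x r b z z' hev hr hbd.2.1 (h2 hz) (h2 hz') ha
        (fun h => n2 z hz (h ▸ hb)) (fun h => n2 z' hz' (h ▸ hb))).2 e1
      have u3 := (K2 x r d z z' hev hr hbd.2.2.2 (h2 hz) (h2 hz') ha
        (fun h => n2 z hz (h ▸ hd)) (fun h => n2 z' hz' (h ▸ hd))).2 e1
      omega
  have I3 := K3 x r a b c d hr halt
  omega

end DP
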