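import Pool.Agent.helper61.DP.SpecA

/-!
# Module dp:PX: closed cochains on the exterior of a box which vanish far away are exact
-/

namespace DP

theorem PX_ind {W : Set V} {u v : V} (h : Con W u v) (P : V → Prop) (h0 : P u)
    (hs : ∀ a b, a ∈ W → b ∈ W → Adj a b → P a → P b) : P v := by
  have : v ∈ W ∧ P v := by
    obtain ⟨hu, h⟩ := h
    induction h with
    | refl => exact ⟨hu, h0⟩
    | tail _ hbc ih => exact ⟨hbc.2, hs _ _ ih.1 hbc.2 hbc.1 ih.2⟩
  exact this.2

theorem PX_cv {W : Set V} (i j j' : ℤ)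
    (h : ∀ t, (j ≤ t ∧ t ≤ j') ∨ (j' ≤ t ∧ t ≤ j) → (i, t) ∈ W) : Con W (i, j) (i, j') := by
  rcases le_total j j' with hj | hj
  · exact con_vert i j j' hj fun t h1 h2 => h t (Or.inl ⟨h1, h2⟩)
  · exact (con_vert i j' j hj fun t h1 h2 => h t (Or.inr ⟨h1, h2⟩)).symm

theorem PX_ch {W : Set V} (j i i' : ℤ)
    (h : ∀ t, (i ≤ t ∧ t ≤ i') ∨ (i' ≤ t ∧ t ≤ i) → (t, j) ∈ W) : Con W (i, j) (i', j) := by
  rcases le_total i i' with hj | hj
  · exact con_horiz j i i' hj fun t h1 h2 => h t (Or.inl ⟨h1, h2⟩)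
  · exact (con_horiz j i' i hj fun t h1 h2 => h t (Or.inr ⟨h1, h2⟩)).symm

/-- The four slabs. -/
def PX_S (x : V) (m n : ℕ) (i : Fin 4) : Set V :=
  {z | sd x z ≤ n ∧ ((i = 0 ∧ x.2 + m ≤ z.2) ∨ (i = 1 ∧ x.1 + m ≤ z.1) ∨ (i = 2 ∧ z.2 ≤ x.2 - m) ∨
    (i = 3 ∧ z.1 ≤ x.1 - m))}

theorem PX_mem0 {x : V} {m n : ℕ} {z : V} :
    z ∈ PX_S x m n 0 ↔ sd x z ≤ n ∧ x.2 + m ≤ z.2 := by simp [PX_S]
theorem PX_mem1 {x : V} {m n : ℕ} {z : V} :
    z ∈ PX_S x m n 1 ↔ sd x z ≤ n ∧ x.1 + m ≤ z.1 := by simp [PX_S]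
theorem PX_mem2 {x : V} {m n : ℕ} {z : V} :
    z ∈ PX_S x m n 2 ↔ sd x z ≤ n ∧ z.2 ≤ x.2 - m := by simp [PX_S]
theorem PX_mem3 {x : V} {m n : ℕ} {z : V} :
    z ∈ PX_S x m n 3 ↔ sd x z ≤ n ∧ z.1 ≤ x.1 - m := by simp [PX_S]

theorem PX_rect (x : V) (m n : ℕ) (hmn : m < n) (i : Fin 4) :
    ∃ a b d e : ℤ, PX_S x m n i = rect a b d e := by
  fin_cases i
  · refine ⟨x.1 - n, x.1 + n, x.2 + m, x.2 + n, ?_⟩
    ext z
    show z ∈ PX_S x m n 0 ↔ _ ∧ _ ∧ _ ∧ _
    rw [PX_mem0]
    unfold sd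
    omega
  · refine ⟨x.1 + m, x.1 + n, x.2 - n, x.2 + n, ?_⟩
    ext z
    show z ∈ PX_S x m n 1 ↔ _ ∧ _ ∧ _ ∧ _
    rw [PX_mem1]
    unfold sd
    omega
  · refine ⟨x.1 - n, x.1 + n, x.2 - n, x.2 - m, ?_⟩
    ext z
    show z ∈ PX_S x m n 2 ↔ _ ∧ _ ∧ _ ∧ _
    rw [PX_mem2]
    unfold sd
    omega
  · refine ⟨x.1 - n, x.1 - m, x.2 - n, x.2 + n, ?_⟩
    ext z
    show z ∈ PX_S x m n 3 ↔ _ ∧ _ ∧ _ ∧ _
    rw [PX_mem3]
    unfold sd
    omega

/-- The outer part of a slab. -/
def PX_E (x : V) (m n : ℕ) (i : Fin 4) : Set V := {z | z ∈ PX_S x m n i ∧ sd x z = n}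

theorem PX_E_con (x : V) (m n : ℕ) (hmn : m < n) (i : Fin 4) :
    ∃ o ∈ PX_E x m n i, ∀ z ∈ PX_E x m n i, Con (PX_E x m n i) z o := by
  fin_cases i
  · show ∃ o ∈ PX_E x m n 0, ∀ z ∈ PX_E x m n 0, Con (PX_E x m n 0) z o
    have mem : ∀ z : V, z ∈ PX_E x m n 0 ↔ (sd x z ≤ n ∧ x.2 + m ≤ z.2) ∧ sd x z = n := by
      intro z
      show (z ∈ PX_S x m n 0 ∧ sd x z = n) ↔ _
      rw [PX_mem0]
    refine ⟨(x.1 + n, x.2 + n), by rw [mem]; unfold sd; simp only; omega, ?_⟩
    rintro ⟨z1, z2⟩ hz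
    rw [mem] at hz
    unfold sd at hz
    simp only at hz
    have h1 : z2 = x.2 + n ∨ z1 = x.1 + n ∨ z1 = x.1 - n := by omega
    rcases h1 with rfl | rfl | rfl
    · exact PX_ch _ _ _ fun t ht => by rw [mem]; unfold sd; simp only; omega
    · exact PX_cv _ _ _ fun t ht => by rw [mem]; unfold sd; simp only; omega
    · exact (PX_cv _ _ (x.2 + n) fun t ht => by rw [mem]; unfold sd; simp only; omega).trans
        (PX_ch _ _ _ fun t ht => by rw [mem]; unfold sd; simp only; omega)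
  · show ∃ o ∈ PX_E x m n 1, ∀ z ∈ PX_E x m n 1, Con (PX_E x m n 1) z o
    have mem : ∀ z : V, z ∈ PX_E x m n 1 ↔ (sd x z ≤ n ∧ x.1 + m ≤ z.1) ∧ sd x z = n := by
      intro z
      show (z ∈ PX_S x m n 1 ∧ sd x z = n) ↔ _
      rw [PX_mem1]
    refine ⟨(x.1 + n, x.2 + n), by rw [mem]; unfold sd; simp only; omega, ?_⟩
    rintro ⟨z1, z2⟩ hz
    rw [mem] at hz
    unfold sd at hz
    simp only at hz
    have h1 : z1 = x.1 + n ∨ z2 = x.2 + n ∨ z2 = x.2 - n := by omega
    rcases h1 with rfl | rfl | rfl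
    · exact PX_cv _ _ _ fun t ht => by rw [mem]; unfold sd; simp only; omega
    · exact PX_ch _ _ _ fun t ht => by rw [mem]; unfold sd; simp only; omega
    · exact (PX_ch _ _ (x.1 + n) fun t ht => by rw [mem]; unfold sd; simp only; omega).trans
        (PX_cv _ _ _ fun t ht => by rw [mem]; unfold sd; simp only; omega)
  · show ∃ o ∈ PX_E x m n 2, ∀ z ∈ PX_E x m n 2, Con (PX_E x m n 2) z o
    have mem : ∀ z : V, z ∈ PX_E x m n 2 ↔ (sd x z ≤ n ∧ z.2 ≤ x.2 - m) ∧ sd x z = n := by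
      intro z
      show (z ∈ PX_S x m n 2 ∧ sd x z = n) ↔ _
      rw [PX_mem2]
    refine ⟨(x.1 + n, x.2 - n), by rw [mem]; unfold sd; simp only; omega, ?_⟩
    rintro ⟨z1, z2⟩ hz
    rw [mem] at hz
    unfold sd at hz
    simp only at hz
    have h1 : z2 = x.2 - n ∨ z1 = x.1 + n ∨ z1 = x.1 - n := by omega
    rcases h1 with rfl | rfl | rfl
    · exact PX_ch _ _ _ fun t ht => by rw [mem]; unfold sd; simp only; omega
    · exact PX_cv _ _ _ fun t ht => by rw [mem]; unfold sd; simp only; omega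
    · exact (PX_cv _ _ (x.2 - n) fun t ht => by rw [mem]; unfold sd; simp only; omega).trans
        (PX_ch _ _ _ fun t ht => by rw [mem]; unfold sd; simp only; omega)
  · show ∃ o ∈ PX_E x m n 3, ∀ z ∈ PX_E x m n 3, Con (PX_E x m n 3) z o
    have mem : ∀ z : V, z ∈ PX_E x m n 3 ↔ (sd x z ≤ n ∧ z.1 ≤ x.1 - m) ∧ sd x z = n := by
      intro z
      show (z ∈ PX_S x m n 3 ∧ sd x z = n) ↔ _
      rw [PX_mem3]
    refine ⟨(x.1 - n, x.2 + n), by rw [mem]; unfold sd; simp only; omega, ?_⟩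
    rintro ⟨z1, z2⟩ hz
    rw [mem] at hz
    unfold sd at hz
    simp only at hz
    have h1 : z1 = x.1 - n ∨ z2 = x.2 + n ∨ z2 = x.2 - n := by omega
    rcases h1 with rfl | rfl | rfl
    · exact PX_cv _ _ _ fun t ht => by rw [mem]; unfold sd; simp only; omega
    · exact PX_ch _ _ _ fun t ht => by rw [mem]; unfold sd; simp only; omega
    · exact (PX_ch _ _ (x.1 - n) fun t ht => by rw [mem]; unfold sd; simp only; omega).trans
        (PX_cv _ _ _ fun t ht => by rw [mem]; unfold sd; simp only; omega)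

/-- A site of two slabs is connected inside both slabs to the outer circle. -/
theorem PX_two (x : V) (m n : ℕ) (hm : 1 ≤ m) (i j : Fin 4) (z : V) (hi : z ∈ PX_S x m n i)
    (hj : z ∈ PX_S x m n j) : ∃ z', sd x z' = n ∧
      Con (PX_S x m n i ∩ PX_S x m n j) z z' := by
  obtain ⟨z1, z2⟩ := z
  by_cases hleft : z1 ≤ x.1 - m
  · by_cases hd : z2 ≤ x.2 - m ∨ x.2 + m ≤ z2
    · -- go left
      refine ⟨(x.1 - n, z2), ?_, PX_ch _ _ _ fun t ht => ?_⟩
      · have := hi.1
        unfold sd at *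
        simp only at *
        omega
      · constructor
        · refine ⟨?_, ?_⟩
          · have := hi.1
            unfold sd at *
            simp only at *
            omega
          · have h1 := hi.1
            have h2 := hi.2
            unfold sd at h1
            simp only at *
            omega
        · refine ⟨?_, ?_⟩
          · have := hi.1
            unfold sd at *
            simp only at *
            omega
          · have h1 := hj.1
            have h2 := hj.2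
            unfold sd at h1
            simp only at *
            omega
    · -- only slab 3
      have h1 := hi.2
      have h2 := hj.2
      simp only at h1 h2
      have e1 : i = 3 := by omega
      have e2 : j = 3 := by omega
      subst e1 e2
      refine ⟨(x.1 - n, z2), ?_, PX_ch _ _ _ fun t ht => ?_⟩
      · have := hi.1
        unfold sd at *
        simp only at *
        omega
      · rw [Set.inter_self, PX_mem3]
        have := hi.1
        unfold sd at *
        simp only at *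
        omega
  · by_cases hright : x.1 + m ≤ z1
    · refine ⟨(x.1 + n, z2), ?_, PX_ch _ _ _ fun t ht => ?_⟩
      · have := hi.1
        unfold sd at *
        simp only at *
        omega
      · constructor
        · refine ⟨?_, ?_⟩
          · have := hi.1
            unfold sd at *
            simp only at *
            omega
          · have h1 := hi.1
            have h2 := hi.2
            unfold sd at h1
            simp only at *
            omega
        · refine ⟨?_, ?_⟩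
          · have := hi.1
            unfold sd at *
            simp only at *
            omega
          · have h1 := hj.1
            have h2 := hj.2
            unfold sd at h1
            simp only at *
            omega
    · -- slab 0 or slab 2
      have h1 := hi.2
      have h2 := hj.2
      simp only at h1 h2
      have e : (i = 0 ∧ j = 0) ∨ (i = 2 ∧ j = 2) := by omega
      rcases e with ⟨e1, e2⟩ | ⟨e1, e2⟩
      · subst e1 e2
        refine ⟨(z1, x.2 + n), ?_, PX_cv _ _ _ fun t ht => ?_⟩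
        · have := hi.1
          unfold sd at *
          simp only at *
          omega
        · rw [Set.inter_self, PX_mem0]
          have := hi.1
          rw [PX_mem0] at hi
          unfold sd at *
          simp only at *
          omega
      · subst e1 e2
        refine ⟨(z1, x.2 - n), ?_, PX_cv _ _ _ fun t ht => ?_⟩
        · have := hi.1
          unfold sd at *
          simp only at *
          omega
        · rw [Set.inter_self, PX_mem2]
          have := hi.1
          rw [PX_mem2] at hi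
          unfold sd at *
          simp only at *
          omega

/-- Adjacent exterior sites which are not both far away lie in a common slab. -/
theorem PX_common (x : V) (m n : ℕ) (hev : Even (x.1 + x.2)) (u v : V)
    (hu : m ≤ sd x u) (hv : m ≤ sd x v) (hun : sd x u ≤ n) (hvn : sd x v ≤ n) (huv : Adj u v) :
    ∃ i, u ∈ PX_S x m n i ∧ v ∈ PX_S x m n i := by
  rw [Int.even_iff] at hev
  rw [adj_iff] at huv
  have h : (x.2 + m ≤ u.2 ∧ x.2 + m ≤ v.2) ∨ (x.1 + m ≤ u.1 ∧ x.1 + m ≤ v.1) ∨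
      (u.2 ≤ x.2 - m ∧ v.2 ≤ x.2 - m) ∨ (u.1 ≤ x.1 - m ∧ v.1 ≤ x.1 - m) := by
    unfold sd at hu hv
    omega
  rcases h with h | h | h | h
  · exact ⟨0, PX_mem0.2 ⟨hun, h.1⟩, PX_mem0.2 ⟨hvn, h.2⟩⟩
  · exact ⟨1, PX_mem1.2 ⟨hun, h.1⟩, PX_mem1.2 ⟨hvn, h.2⟩⟩
  · exact ⟨2, PX_mem2.2 ⟨hun, h.1⟩, PX_mem2.2 ⟨hvn, h.2⟩⟩
  · exact ⟨3, PX_mem3.2 ⟨hun, h.1⟩, PX_mem3.2 ⟨hvn, h.2⟩⟩

theorem PX_out (x : V) (m n : ℕ) (i : Fin 4) (z : V) (hz : z ∈ PX_S x m n i) : m ≤ sd x z := by
  have := hz.2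
  unfold sd
  omega

open Classical in
theorem PX (hPR : PR_stmt) : PX_stmt := by
  intro x m n f hev hm hmn hcl hf0
  have z1 : ∀ a b c : ZMod 2, a + c + (b + c) = a + b := by decide
  have z2 : ∀ a b : ZMod 2, 0 = a + b → b = a := by decide
  have z3 : ∀ a : ZMod 2, a + a = 0 := by decide
  have z4 : ∀ a b c d : ZMod 2, a + b = c + d → a = c → b = d := by decide
  -- potentials on the slabs
  have hpot : ∀ i : Fin 4, ∃ φ : V → ZMod 2,
      (∀ u ∈ PX_S x m n i, ∀ v ∈ PX_S x m n i, Adj u v → f u v = φ u + φ v) ∧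
        ∀ z ∈ PX_S x m n i, sd x z = n → φ z = 0 := by
    intro i
    obtain ⟨a, b, d, e, hrect⟩ := PX_rect x m n hmn i
    have hcl' : Closed (rect a b d e) f := by
      refine ⟨hcl.1, ?_⟩
      intro u v w hu hv hw h1 h2 h3
      rw [← hrect] at hu hv hw
      exact hcl.2 u v w (PX_out x m n i u hu) (PX_out x m n i v hv) (PX_out x m n i w hw) h1 h2 h3
    obtain ⟨φ, hφ⟩ := hPR a b d e f hcl'
    rw [← hrect] at hφ
    obtain ⟨o, ho, hcon⟩ := PX_E_con x m n hmn i
    refine ⟨fun z => φ z + φ o, ?_, ?_⟩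
    · intro u hu v hv huv
      rw [z1]
      exact hφ u hu v hv huv
    · intro z hz hzn
      have hzo : φ z = φ o := by
        refine PX_ind (hcon z ⟨hz, hzn⟩) (fun w => φ z = φ w) rfl ?_
        intro a b ha hb hab hP
        rw [hP]
        have h1 := hφ a ha.1 b hb.1 hab
        rw [hf0 a b (le_of_eq ha.2.symm) (le_of_eq hb.2.symm)] at h1
        exact (z2 _ _ h1).symm
      show φ z + φ o = 0
      rw [hzo, z3]
  choose φ hφ1 hφ2 using hpot
  -- agreement
  have hag : ∀ i j z, z ∈ PX_S x m n i → z ∈ PX_S x m n j → φ i z = φ j z := by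
    intro i j z hi hj
    obtain ⟨z', hz', hc⟩ := PX_two x m n hm i j z hi hj
    have hz'm : z' ∈ PX_S x m n i ∩ PX_S x m n j := by
      refine PX_ind hc (fun w => w ∈ PX_S x m n i ∩ PX_S x m n j) ⟨hi, hj⟩ ?_
      intro a b _ hb _ _
      exact hb
    refine PX_ind hc.symm (fun w => φ i w = φ j w) ?_ ?_
    · rw [hφ2 i z' hz'm.1 hz', hφ2 j z' hz'm.2 hz']
    · intro a b ha hb hab hP
      have h1 := hφ1 i a ha.1 b hb.1 hab
      have h2 := hφ1 j a ha.2 b hb.2 hab
      rw [h1] at h2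
      exact z4 _ _ _ _ h2 hP
  have hψ : ∃ ψ : V → ZMod 2, (∀ z, n ≤ sd x z → ψ z = 0) ∧
      ∀ i z, z ∈ PX_S x m n i → ψ z = φ i z := by
    refine ⟨fun z => if h : ∃ i, z ∈ PX_S x m n i ∧ sd x z < n then φ h.choose z else 0, ?_, ?_⟩
    · intro z hz
      have h : ¬ ∃ i, z ∈ PX_S x m n i ∧ sd x z < n := by
        rintro ⟨i, -, h⟩
        omega
      exact dif_neg h
    · intro i z hz
      by_cases hzn : sd x z < n
      · have h : ∃ i, z ∈ PX_S x m n i ∧ sd x z < n := ⟨i, hz, hzn⟩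
        refine (dif_pos h).trans ?_
        exact hag _ _ z h.choose_spec.1 hz
      · have h : ¬ ∃ i, z ∈ PX_S x m n i ∧ sd x z < n := by
          rintro ⟨i, -, h⟩
          exact hzn h
        refine (dif_neg h).trans ?_
        have h1 : sd x z ≤ n := hz.1
        exact (hφ2 i z hz (by omega)).symm
  obtain ⟨ψ, hψ0, hval⟩ := hψ
  refine ⟨ψ, ?_⟩
  intro u v hu hv huv
  by_cases hboth : n ≤ sd x u ∧ n ≤ sd x v
  · rw [hf0 u v hboth.1 hboth.2, hψ0 u hboth.1, hψ0 v hboth.2, add_zero]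
  · have hd : sd x v ≤ sd x u + 1 ∧ sd x u ≤ sd x v + 1 := by
      have := huv.1
      unfold sd at *
      omega
    obtain ⟨i, h1, h2⟩ := PX_common x m n hev u v hu hv (by omega) (by omega) huv
    rw [hval i u h1, hval i v h2]
    exact hφ1 i u h1 v h2 huv

end DP
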