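import Pool.Agent.helper76.DP.Spec

set_option autoImplicit false

/-! Row ENG of project DP (MP_bf63dc_nt). -/

namespace Pool.Agent.DP

open Finset
open Pool.Agent.FR (mean Eig)

theorem ENG_mean_div {α : Type} [Fintype α] (f : α → ℝ) (k : ℝ) : (mean fun x => f x / k) = mean f / k := by
  unfold mean
  rw [← Finset.sum_div, div_right_comm]

theorem ENG (hCORE : CORE_stmt) (hLOWC : LOWC_stmt) : ENG_stmt := by
  intro ρ R ε hε hε1 hdata
  have hR1 : (0 : ℝ) < (#R : ℝ) + 1 := by positivity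
  obtain ⟨e, he0, he1, he2⟩ : ∃ e : ℝ, 0 < e ∧ e ≤ 5 * ε / 10 ^ 8 ∧ e ≤ 1 / ((#R : ℝ) + 1) :=
    ⟨min (5 * ε / 10 ^ 8) (1 / ((#R : ℝ) + 1)), lt_min (by positivity) (by positivity), min_le_left _ _, min_le_right _ _⟩
  obtain ⟨Φ, Z, W, iΦ, iZ, iW, nΦ, nZ, nW, A, g, Y, β, ω, d, hA, hA2, hA4, hr⟩ := hdata e he0
  have hcore := hCORE Φ (Z × W) ρ R A g (fun r p => ω r (p.1.1, p.2.1) * (β r p - Y r p) / 2) (3 * ε / 10 ^ 7) e
    (by positivity) (by linarith) hA
    (by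
      intro r hrR p
      obtain ⟨h1, h2, h3, -⟩ := hr r hrR
      obtain ⟨y0, y1⟩ := h1 p
      obtain ⟨b0, b1⟩ := h2 p
      obtain ⟨w0, w1⟩ := h3 (p.1.1, p.2.1)
      have h4 : |β r p - Y r p| ≤ 1 := abs_le.2 ⟨by linarith, by linarith⟩
      rw [abs_div, abs_mul, abs_of_nonneg w0, abs_of_pos (by norm_num : (0 : ℝ) < 2), div_le_iff₀ (by norm_num)]
      have h5 : ω r (p.1.1, p.2.1) * |β r p - Y r p| ≤ 2 * 1 := mul_le_mul w1 h4 (abs_nonneg _) (by norm_num)
      linarith)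
    he0.le
    (by
      have h1 : e * (#R : ℝ) ≤ 1 / ((#R : ℝ) + 1) * (#R : ℝ) := mul_le_mul_of_nonneg_right he2 (by positivity)
      have h2 : 1 / ((#R : ℝ) + 1) * (#R : ℝ) ≤ 1 := by
        rw [one_div, inv_mul_le_iff₀ hR1]
        linarith
      exact h1.trans h2)
    (by
      intro r hrR r' hrR' hne
      obtain ⟨-, -, -, -, -, -, -, h7⟩ := hr r hrR
      have h8 := h7 r' hrR' hne
      have h9 : (mean fun p : (Z × W) × (Z × W) => (ω r (p.1.1, p.2.1) * (β r p - Y r p) / 2) *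
          (ω r' (p.1.1, p.2.1) * (β r' p - Y r' p) / 2)) =
          (mean fun p : (Z × W) × (Z × W) => (ω r (p.1.1, p.2.1) * (β r p - Y r p)) *
            (ω r' (p.1.1, p.2.1) * (β r' p - Y r' p))) / 4 := by
        rw [← ENG_mean_div]
        congr 1
        funext p
        ring
      rw [h9, abs_div, abs_of_pos (by norm_num : (0 : ℝ) < 4)]
      linarith)
    (by
      intro r hrR
      obtain ⟨h1, h2, h3, h4, h5, h6, h7, -⟩ := hr r hrR
      have h8 := hLOWC Φ Z W A (g r) (Y r) (β r) (ω r) (d r) (3 / 2000000) e (by norm_num) hA hA2 hA4 h1 h2 h3 h4 h5 h6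
      have h9 : (mean fun φ => mean fun p : (Z × W) × (Z × W) =>
          A (g r φ) p.1 * A φ p.2 * (ω r (p.1.1, p.2.1) * (β r p - Y r p) / 2)) =
          (mean fun φ => mean fun p : (Z × W) × (Z × W) => A (g r φ) p.1 * A φ p.2 * (ω r (p.1.1, p.2.1) * (β r p - Y r p))) / 2 := by
        rw [← ENG_mean_div]
        congr 1
        funext φ
        rw [← ENG_mean_div]
        congr 1
        funext p
        ring
      rw [h9]
      refine le_trans ?_ (le_abs_self _)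
      rw [le_div_iff₀ (by norm_num)]
      refine le_trans ?_ h8
      have h10 : (3 / 2000000 : ℝ) * (ε / 2) ≤ 3 / 2000000 * (mean fun z => ω r z * d r z) :=
        mul_le_mul_of_nonneg_left h7 (by norm_num)
      linarith)
  refine hcore.trans ?_
  rw [div_le_div_iff₀ (by positivity) (by positivity)]
  have h1 : (3 * ε / 10 ^ 7) ^ 18 = 3 ^ 18 / 10 ^ 126 * ε ^ 18 := by
    rw [div_pow, mul_pow]
    ring
  rw [h1]
  have h2 : (2 : ℝ) ^ 35 ≤ 10 ^ 128 * (3 ^ 18 / 10 ^ 126) := by norm_num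
  calc (2 : ℝ) ^ 35 * ε ^ 18 ≤ 10 ^ 128 * (3 ^ 18 / 10 ^ 126) * ε ^ 18 := mul_le_mul_of_nonneg_right h2 (by positivity)
    _ = 10 ^ 128 * (3 ^ 18 / 10 ^ 126 * ε ^ 18) := by ring

end Pool.Agent.DP
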