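import Pool.Agent.helper96.DP.SpecF
import Pool.Agent.helper61.DP.Base

/-!
# Module dp:PVC: a pivotal connection gives two crossing clusters
-/

namespace DP

/-- From `u` far away, not connected to `v` outside, one reaches the circle of radius `r + 1`. -/
theorem PVC_one {S : Set V} {y : V} {r : ℕ} {u v : V} (h : Con S u v) (hu : r + 1 ≤ sd y u)
    (hn : ¬ Con (S ∩ {w | r + 1 ≤ sd y w}) u v) :
    ∃ a ∈ bd y (r + 1), Con (S ∩ {w | r + 1 ≤ sd y w}) u a := by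
  obtain ⟨a, a', h1, h2, h3, h4⟩ := h.exit' {z | Con (S ∩ {w | r + 1 ≤ sd y w}) u z}
    (Con.refl ⟨h.1, hu⟩) hn
  have ha : Con (S ∩ {w | r + 1 ≤ sd y w}) u a := (Con.mem_right h1).2
  refine ⟨a, ?_, ha⟩
  have h5 : r + 1 ≤ sd y a := (Con.mem_right ha).2
  have h6 : ¬ r + 1 ≤ sd y a' := fun h => h3 (ha.tail h4 ⟨h2, h⟩)
  have h7 := h4.sd_le y
  show sd y a = r + 1
  omega

theorem PVC : PVC_stmt := by
  intro b b' b'' B W k y r R u v hB hrR hW hu hv hbb hc hn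
  -- outside the ball of radius `r` the colourings agree
  have hout : ∀ w, r + 1 ≤ sd y w → col b' w = col b w ∧ col b'' w = col b w := by
    intro w hw
    have hwB : w ∉ B := by
      intro h
      have : sd y w ≤ r := hB h
      omega
    exact ⟨col_congr (hbb w hwB).1, col_congr (hbb w hwB).2⟩
  set S : Set V := {w | w ∈ W ∧ col b' w = k} with hS
  set S0 : Set V := S ∩ {w | r + 1 ≤ sd y w} with hS0
  have hS0'' : S0 ⊆ {w | w ∈ W ∧ col b'' w = k} := by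
    rintro w ⟨⟨h1, h2⟩, h3⟩
    refine ⟨h1, ?_⟩
    rw [(hout w h3).2, ← (hout w h3).1]
    exact h2
  have hcS : Con S u v := hc
  have hnS : ¬ Con S0 u v := fun h => hn (h.mono hS0'')
  obtain ⟨a, ha, hua⟩ := PVC_one hcS (by omega) hnS
  obtain ⟨a', ha', hva⟩ := PVC_one hcS.symm (by omega) (fun h => hnS h.symm)
  have hS0ann : S0 ∩ box y R ⊆ {w | w ∈ ann y (r + 1) R ∧ col b w = k} := by
    rintro w ⟨⟨⟨h1, h2⟩, h3⟩, h4⟩
    refine ⟨⟨h3, h4⟩, ?_⟩
    rw [← (hout w h3).1]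
    exact h2
  have key : ∀ z t, z ∈ bd y (r + 1) → R ≤ sd y t → Con S0 t z →
      ∃ z' ∈ bd y R, Conn (col b) k (ann y (r + 1) R) z z' := by
    intro z t hz ht hc'
    obtain ⟨w, h1, h2, -⟩ := Con.exit (x := y) (m := R) hc'.symm
      (by have : sd y z = r + 1 := hz; omega) ht
    exact ⟨w, h1, h2.mono hS0ann⟩
  obtain ⟨z, hz, hz'⟩ := key a u ha hu hua
  obtain ⟨t, ht, ht'⟩ := key a' v ha' hv hva
  refine ⟨a, ha, a', ha', ⟨z, hz, hz'⟩, ⟨t, ht, ht'⟩, ?_⟩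
  intro hcon
  refine hn ?_
  have h1 : Con {w | w ∈ W ∧ col b'' w = k} a a' := by
    refine Con.mono ?_ hcon
    rintro w ⟨h2, h3⟩
    refine ⟨hW h2.2, ?_⟩
    rw [(hout w h2.1).2]
    exact h3
  exact ((hua.mono hS0'').trans h1).trans (hva.mono hS0'').symm

end DP
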