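import Pool.Agent.helper96.DP.SpecD

/-!
# Module dp:SQ: colour changes in an interval give an alternating sequence
-/

namespace DP

theorem SQ_aux (f : ℤ → Option Bool) (p : ℤ) (L : ℕ) (n : ℕ) :
    ∀ (I : Finset ℤ) (M : ℤ),
      (∀ i ∈ I, p < i ∧ i < p + L ∧ ∃ k, f i = some k ∧ f (i + 1) = some (!k)) →
      (∀ i ∈ I, i ≤ M) → I.card = n + 1 →
      ∃ (u : ℕ → ℤ) (k : Bool), (∀ i ≤ n + 1, p < u i ∧ u i ≤ p + L ∧
        f (u i) = some (xor k (decide (i % 2 = 1)))) ∧ (∀ i < n + 1, u i < u (i + 1)) ∧
        u (n + 1) ≤ M + 1 := by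
  induction n with
  | zero =>
    intro I M hI hM hc
    obtain ⟨a, rfl⟩ := Finset.card_eq_one.mp hc
    obtain ⟨h1, h2, k, h3, h4⟩ := hI a (by simp)
    have h5 := hM a (by simp)
    refine ⟨fun i => a + i, k, ?_, ?_, ?_⟩
    · intro i hi
      have : i = 0 ∨ i = 1 := by omega
      rcases this with rfl | rfl
      · refine ⟨by simpa using h1, by simp; omega, by simpa using h3⟩
      · refine ⟨by simp; omega, by simp; omega, ?_⟩
        simp [h4]
    · intro i hi
      simp
    · simp; omega
  | succ n ih =>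
    intro I M hI hM hc
    have hne : I.Nonempty := by
      rw [← Finset.card_pos]; omega
    set m := I.max' hne with hm
    have hmI : m ∈ I := I.max'_mem hne
    obtain ⟨u, k, hu1, hu2, hu3⟩ := ih (I.erase m) (m - 1)
      (fun i hi => hI i (Finset.mem_of_mem_erase hi))
      (fun i hi => by
        have h1 : i ≤ m := I.le_max' i (Finset.mem_of_mem_erase hi)
        have h2 : i ≠ m := Finset.ne_of_mem_erase hi
        omega)
      (by rw [Finset.card_erase_of_mem hmI]; omega)
    obtain ⟨h1, h2, k', h3, h4⟩ := hI m hmI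
    have h5 := hM m hmI
    obtain ⟨h6, h7, h8⟩ := hu1 (n + 1) le_rfl
    -- the new point
    have key : ∃ v : ℤ, u (n + 1) < v ∧ v ≤ m + 1 ∧
        f v = some (xor k (decide ((n + 1 + 1) % 2 = 1))) := by
      have hpar : decide ((n + 1 + 1) % 2 = 1) = !(decide ((n + 1) % 2 = 1)) := by
        by_cases h : (n + 1) % 2 = 1
        · have h' : ¬ (n + 1 + 1) % 2 = 1 := by omega
          simp [h, h']
        · have h' : (n + 1 + 1) % 2 = 1 := by omega
          simp [h, h']
      rw [hpar]
      by_cases hk : k' = xor k (decide ((n + 1) % 2 = 1))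
      · refine ⟨m + 1, by omega, le_rfl, ?_⟩
        rw [h4, hk]
        simp
      · have hk' : k' = xor k (!(decide ((n + 1) % 2 = 1))) := by
          revert hk
          cases k' <;> cases k <;> cases (decide ((n + 1) % 2 = 1)) <;> simp
        refine ⟨m, ?_, by omega, by rw [h3, hk']⟩
        rcases lt_or_eq_of_le (show u (n + 1) ≤ m by omega) with h | h
        · exact h
        · exfalso
          rw [h, h3] at h8
          exact hk (Option.some.inj h8)
    obtain ⟨v, hv1, hv2, hv3⟩ := key
    refine ⟨fun i => if i ≤ n + 1 then u i else v, k, ?_, ?_, ?_⟩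
    · intro i hi
      by_cases h : i ≤ n + 1
      · simp only [if_pos h]
        exact hu1 i h
      · have : i = n + 1 + 1 := by omega
        subst this
        simp only [if_neg h]
        exact ⟨by omega, by omega, hv3⟩
    · intro i hi
      by_cases h : i + 1 ≤ n + 1
      · simp only [if_pos h, if_pos (show i ≤ n + 1 by omega)]
        exact hu2 i (by omega)
      · have : i = n + 1 := by omega
        subst this
        simp only [if_neg h, if_pos (le_refl (n + 1))]
        exact hv1
    · simp only [if_neg (show ¬ (n + 1 + 1 ≤ n + 1) by omega)]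
      omega

theorem SQ : SQ_stmt := by
  intro f p L t I hI ht h1
  obtain ⟨J, hJ, hJc⟩ := Finset.exists_subset_card_eq ht
  obtain ⟨n, rfl⟩ : ∃ n, t = n + 1 := ⟨t - 1, by omega⟩
  obtain ⟨u, k, hu1, hu2, -⟩ := SQ_aux f p L n J (p + L) (fun i hi => hI i (hJ hi))
    (fun i hi => (hI i (hJ hi)).2.1.le) hJc
  exact ⟨u, k, hu1, hu2⟩

end DP
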