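import Pool.Agent.helper96.DP.SpecF
import Pool.Agent.helper61.DP.Base
import Pool.Agent.helper61.DP.SpecA

/-!
# Module dp:TC: colour symmetry of the four arm event
-/

namespace DP

theorem TC_flip (c : V → Bool) (k : Bool) (R : Set V) (u v : V) :
    Conn (fun w => !(c w)) k R u v ↔ Conn c (!k) R u v := by
  unfold Conn
  have : {w | w ∈ R ∧ (fun w => !(c w)) w = k} = {w | w ∈ R ∧ c w = !k} := by
    ext w
    constructor
    · rintro ⟨h1, h2⟩
      refine ⟨h1, ?_⟩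
      have h3 : (!(c w)) = k := h2
      rw [← h3]
      simp
    · rintro ⟨h1, h2⟩
      refine ⟨h1, ?_⟩
      show (!(c w)) = k
      rw [h2]
      simp
  rw [this]

theorem TC_cl (c : V → Bool) (k : Bool) (x : V) (m n : ℕ) :
    twoCl (fun w => !(c w)) k x m n ↔ twoCl c (!k) x m n := by
  unfold twoCl
  simp only [TC_flip]

theorem TC_half (hFI : FI_stmt) (hIF : IF_stmt) (hAC : AC_stmt) (c : V → Bool) (x : V) (m n : ℕ)
    (hev : Even (x.1 + x.2)) (hm : 1 ≤ m) (hmn : m < n) (h : twoCl c true x m n) :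
    twoCl c false x m n := by
  obtain ⟨p₁, p₂, p₃, p₄, halt, h1, h2, h3, h4, i1, i2, i3, i4⟩ := hFI c x m n hev hm hmn h
  have halt' : alt x m p₂ p₃ p₄ p₁ := hAC.2.2.1 x m _ _ _ _ hm halt
  have hn := hIF c false x m n hev hm hmn p₂ p₃ p₄ p₁ halt' h2 h3 h4 h1 i2 i3 i4 i1
  obtain ⟨q2, u2, hu2, j2⟩ := i2
  obtain ⟨q4, u4, hu4, j4⟩ := i4
  rw [h2] at j2
  rw [h4] at j4
  exact ⟨p₂, q2, p₄, q4, ⟨u2, hu2, j2⟩, ⟨u4, hu4, j4⟩, hn⟩

theorem TC (hFI : FI_stmt) (hIF : IF_stmt) (hAC : AC_stmt) : TC_stmt := by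
  intro c x m n hev hm hmn
  constructor
  · intro h
    have h1 : twoCl (fun w => !(c w)) true x m n := (TC_cl c true x m n).2 h
    have h2 := TC_half hFI hIF hAC _ x m n hev hm hmn h1
    exact (TC_cl c false x m n).1 h2
  · exact TC_half hFI hIF hAC c x m n hev hm hmn

end DP
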